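import Pool.Agent.H37.CNE.Stmts

/-!
# Row SLX of the board `cne`
-/

set_option autoImplicit false

namespace Pool.CND

open Polynomial

theorem slx_aux {k L : Type} [Field k] [Field L] [Algebra k L] (P : Place k L) (e : ℕ)
    (he : 1 ≤ e) : ∀ (n : ℕ) (p : k[X]), p ≠ 0 → p.natDegree ≤ n → ∃ t : ℕ, ∀ y : L, y ≠ 0 →
      P.ord y = (e : ℤ) → aeval y p ≠ 0 ∧ P.ord (aeval y p) = (e : ℤ) * t := by
  intro n
  induction n with
  | zero =>
    intro p hp hn
    have hc := Polynomial.eq_C_of_natDegree_le_zero hn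
    have h0 : p.coeff 0 ≠ 0 := by
      intro h
      apply hp
      rw [hc, h, map_zero]
    refine ⟨0, fun y _ _ => ?_⟩
    rw [hc, aeval_C]
    refine ⟨(_root_.map_ne_zero _).2 h0, ?_⟩
    rw [P.ord_const _ h0]
    simp
  | succ n ih =>
    intro p hp hn
    have hX : p = p.divX * X + C (p.coeff 0) := (divX_mul_X_add p).symm
    by_cases hd : p.divX = 0
    · have hc : p = C (p.coeff 0) := by
        have := hX
        rw [hd, zero_mul, zero_add] at this
        exact this
      have h0 : p.coeff 0 ≠ 0 := by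
        intro h
        apply hp
        rw [hc, h, map_zero]
      refine ⟨0, fun y _ _ => ?_⟩
      rw [hc, aeval_C]
      refine ⟨(_root_.map_ne_zero _).2 h0, ?_⟩
      rw [P.ord_const _ h0]
      simp
    · have hdeg : p.divX.natDegree ≤ n := by
        rw [natDegree_divX_eq_natDegree_tsub_one]
        omega
      obtain ⟨t, ht⟩ := ih _ hd hdeg
      by_cases h0 : p.coeff 0 = 0
      · refine ⟨t + 1, fun y hy hye => ?_⟩
        obtain ⟨h1, h2⟩ := ht y hy hye
        have hev : aeval y p = aeval y p.divX * y := by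
          conv_lhs => rw [hX, h0]
          simp
        rw [hev]
        refine ⟨mul_ne_zero h1 hy, ?_⟩
        rw [P.ord_mul _ _ h1 hy, h2, hye]
        push_cast
        ring
      · refine ⟨0, fun y hy hye => ?_⟩
        obtain ⟨h1, h2⟩ := ht y hy hye
        have hev : aeval y p = algebraMap k L (p.coeff 0) + aeval y p.divX * y := by
          conv_lhs => rw [hX]
          simp [add_comm]
        have hc0 : algebraMap k L (p.coeff 0) ≠ 0 := (_root_.map_ne_zero _).2 h0
        have hoc := P.ord_const _ h0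
        have hge : P.Ge (aeval y p.divX * y) (P.ord (algebraMap k L (p.coeff 0)) + 1) := by
          right
          rw [P.ord_mul _ _ h1 hy, h2, hye, hoc]
          have : (0 : ℤ) ≤ (e : ℤ) * t := by positivity
          have : (1 : ℤ) ≤ e := by exact_mod_cast he
          linarith
        have := P.ord_add_of_lt hc0 hge
        rw [hev]
        refine ⟨this.1, ?_⟩
        rw [this.2, hoc]
        simp

theorem slx_thm : S_SLX := by
  intro k L _ _ _ P x e he hx hxe c hc hc0
  rw [IntermediateField.mem_adjoin_simple_iff] at hc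
  obtain ⟨r, s, rfl⟩ := hc
  have hr : r ≠ 0 := by
    rintro rfl
    simp at hc0
  have hs : s ≠ 0 := by
    rintro rfl
    simp at hc0
  obtain ⟨t, ht⟩ := slx_aux P e he _ r hr le_rfl
  obtain ⟨u, hu⟩ := slx_aux P e he _ s hs le_rfl
  obtain ⟨hr1, hr2⟩ := ht x hx hxe
  obtain ⟨hs1, hs2⟩ := hu x hx hxe
  rw [P.ord_div hr1 hs1, hr2, hs2]
  refine ⟨⟨(t : ℤ) - u, by ring⟩, ?_⟩
  intro σ a ha hσ
  have hy : algebraMap k L a * x ≠ 0 := mul_ne_zero ((_root_.map_ne_zero _).2 ha) hx
  have hye : P.ord (algebraMap k L a * x) = (e : ℤ) := by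
    rw [P.ord_mul _ _ ((_root_.map_ne_zero _).2 ha) hx, P.ord_const _ ha, hxe, zero_add]
  obtain ⟨hr3, hr4⟩ := ht _ hy hye
  obtain ⟨hs3, hs4⟩ := hu _ hy hye
  have h1 : ∀ q : k[X], σ (aeval x q) = aeval (algebraMap k L a * x) q := by
    intro q
    rw [← hσ]
    exact (Polynomial.aeval_algHom_apply (σ : L →ₐ[k] L) x q).symm
  rw [map_div₀, h1, h1, P.ord_div hr3 hs3, hr4, hs4]

end Pool.CND
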